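import Mathlib

/-!
# Uniqueness of the aggregate strategy in Population Lotto equilibria

Any two Nash equilibria of the Population Lotto game with the same budget distribution have the
same aggregate population strategy.
-/

namespace Pool.Agent.Results.MP_ed16aa_pr.UniqueAggregate

open MeasureTheory Set Filter Topology ProbabilityTheory
open scoped ENNReal

/-- The probability of beating a draw from `g` with the bid `x` (ties are split). -/
noncomputable def pay (g : Measure ℝ) (x : ℝ) : ℝ≥0∞ := g (Iio x) + g {x} / 2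

/-- The expected payoff of the strategy `f` against the aggregate strategy `g`. -/
noncomputable def H (g f : Measure ℝ) : ℝ≥0∞ := ∫⁻ x, pay g x ∂f

/-- `f` is a strategy for budget `b`: a probability distribution on `[0, ∞)` with mean `b`. -/
structure Strat (b : ℝ) (f : Measure ℝ) : Prop where
  prob : IsProbabilityMeasure f
  nonneg : f (Iio 0) = 0
  int : Integrable (fun x => x) f
  mean : ∫ x, x ∂f = b

/-- Nash equilibria of the Population Lotto game with budget distribution `B`: the players form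
a probability space `(I, ρ)`, player `i` has budget `b i` and uses the strategy `f i`, the law of
the budgets is `B`, the aggregate population strategy is `g = ∫ f i dρ(i)`, and almost every
player maximises its payoff against `g` over all strategies for its budget. -/
structure IsEquilibrium (B : Measure ℝ) {I : Type*} [MeasurableSpace I] (ρ : Measure I)
    (b : I → ℝ) (f : Kernel I ℝ) (g : Measure ℝ) : Prop where
  prob : IsProbabilityMeasure ρ
  meas : Measurable b
  law : ρ.map b = B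
  strat : ∀ᵐ i ∂ρ, Strat (b i) (f i)
  agg : g = ρ.bind f
  opt : ∀ᵐ i ∂ρ, ∀ f' : Measure ℝ, Strat (b i) f' → H g f' ≤ H g (f i)

/-! ### The payoff -/

lemma pay_mono (g : Measure ℝ) : Monotone (pay g) := by
  intro x y hxy
  rcases hxy.eq_or_lt with rfl | h
  · exact le_rfl
  · unfold pay
    calc g (Iio x) + g {x} / 2 ≤ g (Iio x) + g {x} := by
          gcongr
          exact ENNReal.half_le_self
      _ = g (Iic x) := by
          rw [← measure_union _ (measurableSet_singleton x), Iio_union_right]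
          simp
      _ ≤ g (Iio y) := measure_mono fun z hz => lt_of_le_of_lt hz h
      _ ≤ _ := le_self_add

lemma pay_meas (g : Measure ℝ) : Measurable (pay g) := (pay_mono g).measurable

lemma pay_le (g : Measure ℝ) [IsProbabilityMeasure g] (x : ℝ) : pay g x ≤ 1 := by
  unfold pay
  calc g (Iio x) + g {x} / 2 ≤ g (Iio x) + g {x} := by
        gcongr
        exact ENNReal.half_le_self
    _ = g (Iic x) := by
        rw [← measure_union _ (measurableSet_singleton x), Iio_union_right]
        simp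
    _ ≤ 1 := prob_le_one

lemma H_add (g₁ g₂ : Measure ℝ) [IsProbabilityMeasure g₁] [IsProbabilityMeasure g₂] :
    H g₂ g₁ + H g₁ g₂ = 1 := by
  have hlt : MeasurableSet {z : ℝ × ℝ | z.2 < z.1} := measurableSet_lt measurable_snd measurable_fst
  have hgt : MeasurableSet {z : ℝ × ℝ | z.1 < z.2} := measurableSet_lt measurable_fst measurable_snd
  have heq : MeasurableSet {z : ℝ × ℝ | z.1 = z.2} := measurableSet_eq_fun measurable_fst measurable_snd
  have h1 : ∫⁻ x, g₂ (Iio x) ∂g₁ = (g₁.prod g₂) {z | z.2 < z.1} := by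
    rw [Measure.prod_apply hlt]; rfl
  have h2 : ∫⁻ x, g₂ {x} ∂g₁ = (g₁.prod g₂) {z | z.1 = z.2} := by
    rw [Measure.prod_apply heq]
    refine lintegral_congr fun x => ?_
    congr 1
    ext y
    simp [eq_comm]
  have h3 : ∫⁻ y, g₁ (Iio y) ∂g₂ = (g₁.prod g₂) {z | z.1 < z.2} := by
    rw [Measure.prod_apply_symm hgt]; rfl
  have h4 : ∫⁻ y, g₁ {y} ∂g₂ = (g₁.prod g₂) {z | z.1 = z.2} := by
    rw [Measure.prod_apply_symm heq]
    refine lintegral_congr fun y => ?_
    congr 1
  have hm1 : Measurable fun x => g₂ (Iio x) :=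
    (show Monotone fun x => g₂ (Iio x) from fun x y h => measure_mono (Iio_subset_Iio h)).measurable
  have hm2 : Measurable fun x => g₁ (Iio x) :=
    (show Monotone fun x => g₁ (Iio x) from fun x y h => measure_mono (Iio_subset_Iio h)).measurable
  have e1 : H g₂ g₁ = (g₁.prod g₂) {z | z.2 < z.1} + (g₁.prod g₂) {z | z.1 = z.2} / 2 := by
    unfold H pay
    rw [lintegral_add_left hm1, h1]
    simp only [div_eq_mul_inv]
    rw [lintegral_mul_const' _ _ (by simp), h2]
  have e2 : H g₁ g₂ = (g₁.prod g₂) {z | z.1 < z.2} + (g₁.prod g₂) {z | z.1 = z.2} / 2 := by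
    unfold H pay
    rw [lintegral_add_left hm2, h3]
    simp only [div_eq_mul_inv]
    rw [lintegral_mul_const' _ _ (by simp), h4]
  have hu : (univ : Set (ℝ × ℝ)) = ({z | z.2 < z.1} ∪ {z | z.1 < z.2}) ∪ {z | z.1 = z.2} := by
    ext z
    simp only [mem_univ, mem_union, mem_ofPred_eq, true_iff]
    rcases lt_trichotomy z.1 z.2 with h | h | h
    · exact Or.inl (Or.inr h)
    · exact Or.inr h
    · exact Or.inl (Or.inl h)
  have htot : (g₁.prod g₂) {z | z.2 < z.1} + (g₁.prod g₂) {z | z.1 < z.2}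
      + (g₁.prod g₂) {z | z.1 = z.2} = 1 := by
    rw [← measure_union _ hgt, ← measure_union _ heq, ← hu]
    · exact measure_univ
    · rw [Set.disjoint_left]
      rintro z (h | h) h'
      · exact (ne_of_lt h) (Eq.symm h')
      · exact (ne_of_lt h) h'
    · rw [Set.disjoint_left]
      intro z h h'
      exact lt_asymm (show z.2 < z.1 from h) h'
  rw [e1, e2]
  calc _ = (g₁.prod g₂) {z | z.2 < z.1} + (g₁.prod g₂) {z | z.1 < z.2}
        + ((g₁.prod g₂) {z | z.1 = z.2} / 2 + (g₁.prod g₂) {z | z.1 = z.2} / 2) := by ring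
    _ = 1 := by rw [ENNReal.add_halves, htot]

/-- The best payoff of a player with budget `b` against `g`. -/
noncomputable def V (g : Measure ℝ) (b : ℝ) : ℝ≥0∞ := ⨆ (f' : Measure ℝ) (_ : Strat b f'), H g f'

lemma Strat.shift {b δ : ℝ} {f : Measure ℝ} (hf : Strat b f) (hδ : 0 ≤ δ) :
    Strat (b + δ) (f.map (fun x => x + δ)) := by
  have hm : Measurable fun x : ℝ => x + δ := measurable_id.add_const δ
  have := hf.prob
  have hid : AEStronglyMeasurable (fun x : ℝ => x) (f.map fun x => x + δ) :=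
    measurable_id.aestronglyMeasurable
  refine ⟨Measure.isProbabilityMeasure_map hm.aemeasurable, ?_, ?_, ?_⟩
  · rw [Measure.map_apply hm measurableSet_Iio]
    refine measure_mono_null (fun x hx => ?_) hf.nonneg
    have hx' : x + δ < 0 := hx
    have : x < 0 := by linarith
    exact this
  · rw [integrable_map_measure hid hm.aemeasurable]
    exact hf.int.add (integrable_const δ)
  · rw [integral_map hm.aemeasurable hid,
      integral_add hf.int (integrable_const δ), hf.mean]
    simp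

lemma V_mono (g : Measure ℝ) : Monotone (V g) := by
  intro b b' hb
  refine iSup₂_le fun f hf => ?_
  have h1 := hf.shift (sub_nonneg.2 hb)
  rw [add_sub_cancel] at h1
  refine le_trans ?_ (le_iSup₂ (f := fun f' (_ : Strat b' f') => H g f') _ h1)
  have hm : Measurable fun x : ℝ => x + (b' - b) := measurable_id.add_const _
  unfold H
  rw [lintegral_map (pay_meas g) hm]
  refine lintegral_mono fun x => pay_mono g ?_
  linarith

/-! ### Supporting lines -/

lemma H_fin (g f : Measure ℝ) [IsProbabilityMeasure g] [IsProbabilityMeasure f] : H g f ≤ 1 := by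
  unfold H
  calc ∫⁻ x, pay g x ∂f ≤ ∫⁻ _, 1 ∂f := lintegral_mono fun x => pay_le g x
    _ = 1 := by simp

lemma V_fin (g : Measure ℝ) [IsProbabilityMeasure g] (b : ℝ) : V g b ≤ 1 :=
  iSup₂_le fun f hf => by
    have := hf.prob
    exact H_fin g f

lemma strat_dirac {b : ℝ} (hb : 0 ≤ b) : Strat b (Measure.dirac b) := by
  refine ⟨inferInstance, ?_, ?_, ?_⟩
  · rw [Measure.dirac_apply' _ measurableSet_Iio]
    simp [hb]
  · exact integrable_dirac (by simp)
  · exact integral_dirac _ _

/-- The two-point strategy. -/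
lemma strat_two {x b y : ℝ} (hx : 0 ≤ x) (hxb : x < b) (hby : b < y) :
    Strat b (ENNReal.ofReal ((y - b) / (y - x)) • Measure.dirac x
      + ENNReal.ofReal ((b - x) / (y - x)) • Measure.dirac y) := by
  have hxy : 0 < y - x := by linarith
  have h1 : 0 ≤ (y - b) / (y - x) := div_nonneg (by linarith) hxy.le
  have h2 : 0 ≤ (b - x) / (y - x) := div_nonneg (by linarith) hxy.le
  have hsum : (y - b) / (y - x) + (b - x) / (y - x) = 1 := by
    rw [← add_div]; rw [div_eq_one_iff_eq hxy.ne']; ring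
  have hi1 : Integrable (fun z : ℝ => z) (ENNReal.ofReal ((y - b) / (y - x)) • Measure.dirac x) :=
    (integrable_dirac (by simp)).smul_measure ENNReal.ofReal_ne_top
  have hi2 : Integrable (fun z : ℝ => z) (ENNReal.ofReal ((b - x) / (y - x)) • Measure.dirac y) :=
    (integrable_dirac (by simp)).smul_measure ENNReal.ofReal_ne_top
  refine ⟨⟨?_⟩, ?_, hi1.add_measure hi2, ?_⟩
  · simp only [Measure.add_apply, Measure.smul_apply, measure_univ, smul_eq_mul, mul_one]
    rw [← ENNReal.ofReal_add h1 h2, hsum, ENNReal.ofReal_one]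
  · simp only [Measure.add_apply, Measure.smul_apply, smul_eq_mul,
      Measure.dirac_apply' _ measurableSet_Iio]
    have hy : 0 ≤ y := by linarith
    simp [hx, hy]
  · rw [integral_add_measure hi1 hi2, integral_smul_measure, integral_smul_measure,
      integral_dirac, integral_dirac, ENNReal.toReal_ofReal h1, ENNReal.toReal_ofReal h2]
    simp only [smul_eq_mul]
    field_simp
    ring

/-- Real-valued payoff. -/
noncomputable def P (g : Measure ℝ) (x : ℝ) : ℝ := (pay g x).toReal

lemma P_meas (g : Measure ℝ) : Measurable (P g) := (pay_meas g).ennreal_toReal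

lemma P_bd (g : Measure ℝ) [IsProbabilityMeasure g] (x : ℝ) : 0 ≤ P g x ∧ P g x ≤ 1 :=
  ⟨ENNReal.toReal_nonneg, by
    have := ENNReal.toReal_mono ENNReal.one_ne_top (pay_le g x)
    rw [ENNReal.toReal_one] at this
    exact this⟩

lemma P_int (g f : Measure ℝ) [IsProbabilityMeasure g] [IsProbabilityMeasure f] :
    Integrable (P g) f :=
  Integrable.of_bound (P_meas g).aestronglyMeasurable 1 (Eventually.of_forall fun x => by
    rw [Real.norm_eq_abs, abs_of_nonneg (P_bd g x).1]; exact (P_bd g x).2)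

lemma H_real (g f : Measure ℝ) [IsProbabilityMeasure g] [IsProbabilityMeasure f] :
    (H g f).toReal = ∫ x, P g x ∂f := by
  unfold H P
  rw [integral_toReal (pay_meas g).aemeasurable]
  exact Eventually.of_forall fun x => lt_of_le_of_lt (pay_le g x) ENNReal.one_lt_top

/-- An optimal strategy is supported on the contact set of a supporting line. -/
lemma exists_line {g f : Measure ℝ} [IsProbabilityMeasure g] {b : ℝ} (hb : 0 < b)
    (hf : Strat b f) (hopt : H g f = V g b) :
    ∃ α β : ℝ, (∀ x : ℝ, 0 ≤ x → P g x ≤ α * x + β) ∧ ∀ᵐ x ∂f, P g x = α * x + β := by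
  have := hf.prob
  set v : ℝ := (V g b).toReal with hv
  have hVtop : V g b ≠ ∞ := ne_top_of_le_ne_top ENNReal.one_ne_top (V_fin g b)
  have hle : ∀ f' : Measure ℝ, Strat b f' → ∫ x, P g x ∂f' ≤ v := by
    intro f' hf'
    have := hf'.prob
    rw [← H_real g f']
    exact ENNReal.toReal_mono hVtop (le_iSup₂ (f := fun f' (_ : Strat b f') => H g f') f' hf')
  have hveq : ∫ x, P g x ∂f = v := by rw [← H_real g f, hopt]
  have hPb : P g b ≤ v := by
    have := hle _ (strat_dirac hb.le)
    rwa [integral_dirac' _ _ (P_meas g).stronglyMeasurable] at this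
  have htwo : ∀ x y : ℝ, 0 ≤ x → x < b → b < y → (y - b) * P g x + (b - x) * P g y ≤ v * (y - x) := by
    intro x y hx hxb hby
    have hxy : 0 < y - x := by linarith
    have h1 : 0 ≤ (y - b) / (y - x) := div_nonneg (by linarith) hxy.le
    have h2 : 0 ≤ (b - x) / (y - x) := div_nonneg (by linarith) hxy.le
    have h := hle _ (strat_two hx hxb hby)
    have hi1 : Integrable (P g) (ENNReal.ofReal ((y - b) / (y - x)) • Measure.dirac x) :=
      (P_int g _).smul_measure ENNReal.ofReal_ne_top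
    have hi2 : Integrable (P g) (ENNReal.ofReal ((b - x) / (y - x)) • Measure.dirac y) :=
      (P_int g _).smul_measure ENNReal.ofReal_ne_top
    rw [integral_add_measure hi1 hi2, integral_smul_measure, integral_smul_measure,
      integral_dirac' _ _ (P_meas g).stronglyMeasurable,
      integral_dirac' _ _ (P_meas g).stronglyMeasurable, ENNReal.toReal_ofReal h1,
      ENNReal.toReal_ofReal h2] at h
    simp only [smul_eq_mul] at h
    have h3 : ((y - b) / (y - x) * P g x + (b - x) / (y - x) * P g y) * (y - x)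
        = (y - b) * P g x + (b - x) * P g y := by field_simp
    rw [← h3]
    exact mul_le_mul_of_nonneg_right h hxy.le
  set A : Set ℝ := {s | ∃ y : ℝ, b < y ∧ s = (P g y - v) / (y - b)} with hA
  have hAne : A.Nonempty := ⟨_, b + 1, by linarith, rfl⟩
  have hAbd : ∀ x : ℝ, 0 ≤ x → x < b → ∀ s ∈ A, s ≤ (v - P g x) / (b - x) := by
    rintro x hx hxb s ⟨y, hy, rfl⟩
    rw [div_le_div_iff₀ (by linarith) (by linarith)]
    have := htwo x y hx hxb hy
    nlinarith
  have hAbdd : BddAbove A := ⟨_, fun s hs => hAbd 0 le_rfl hb s hs⟩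
  set α := sSup A with hα
  refine ⟨α, v - α * b, ?_, ?_⟩
  · intro x hx
    rcases lt_trichotomy x b with h | h | h
    · have h1 : α ≤ (v - P g x) / (b - x) := csSup_le hAne (hAbd x hx h)
      rw [le_div_iff₀ (by linarith)] at h1
      linarith
    · subst h
      linarith
    · have h1 : (P g x - v) / (x - b) ≤ α := le_csSup hAbdd ⟨x, h, rfl⟩
      rw [div_le_iff₀ (by linarith)] at h1
      linarith
  · have hline : ∀ x : ℝ, 0 ≤ x → P g x ≤ α * x + (v - α * b) := by
      intro x hx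
      rcases lt_trichotomy x b with h | h | h
      · have h1 : α ≤ (v - P g x) / (b - x) := csSup_le hAne (hAbd x hx h)
        rw [le_div_iff₀ (by linarith)] at h1
        linarith
      · subst h
        linarith
      · have h1 : (P g x - v) / (x - b) ≤ α := le_csSup hAbdd ⟨x, h, rfl⟩
        rw [div_le_iff₀ (by linarith)] at h1
        linarith
    have hnn : ∀ᵐ x ∂f, 0 ≤ x := by
      rw [ae_iff]
      have : {x : ℝ | ¬ 0 ≤ x} = Iio 0 := by ext x; simp
      rw [this]; exact hf.nonneg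
    have hi : Integrable (fun x => α * x + (v - α * b) - P g x) f :=
      ((hf.int.const_mul α).add (integrable_const _)).sub (P_int g f)
    have hi1 : Integrable (fun x => α * x + (v - α * b)) f :=
      (hf.int.const_mul α).add (integrable_const _)
    have h0 : ∫ x, (α * x + (v - α * b) - P g x) ∂f = 0 := by
      rw [integral_sub hi1 (P_int g f),
        integral_add (hf.int.const_mul α) (integrable_const _), integral_const_mul, hf.mean, hveq]
      simp
    have h1 := (integral_eq_zero_iff_of_nonneg_ae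
      (hnn.mono fun x hx => sub_nonneg.2 (hline x hx)) hi).1 h0
    refine h1.mono fun x hx => ?_
    simp only [Pi.zero_apply] at hx
    linarith

/-! ### Equilibria -/

section Eq

variable {B : Measure ℝ} {I : Type*} [MeasurableSpace I] {ρ : Measure I} {b : I → ℝ}
  {f : Kernel I ℝ} {g : Measure ℝ}

lemma IsEquilibrium.prob_g (E : IsEquilibrium B ρ b f g) : IsProbabilityMeasure g := by
  have := E.prob
  constructor
  rw [E.agg, Measure.bind_apply MeasurableSet.univ f.measurable.aemeasurable]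
  have : ∀ᵐ i ∂ρ, f i univ = 1 := E.strat.mono fun i hi => by
    have := hi.prob
    exact measure_univ
  rw [lintegral_congr_ae this]
  simp

lemma IsEquilibrium.apply (E : IsEquilibrium B ρ b f g) {s : Set ℝ} (hs : MeasurableSet s) :
    g s = ∫⁻ i, f i s ∂ρ := by
  rw [E.agg, Measure.bind_apply hs f.measurable.aemeasurable]

lemma IsEquilibrium.H_eq (E : IsEquilibrium B ρ b f g) (g' : Measure ℝ) :
    H g' g = ∫⁻ i, H g' (f i) ∂ρ := by
  rw [E.agg]
  unfold H
  rw [Measure.lintegral_bind f.measurable.aemeasurable (pay_meas g').aemeasurable]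

lemma IsEquilibrium.V_eq (E : IsEquilibrium B ρ b f g) : ∀ᵐ i ∂ρ, H g (f i) = V g (b i) := by
  filter_upwards [E.strat, E.opt] with i h1 h2
  refine le_antisymm (le_iSup₂ (f := fun f' (_ : Strat (b i) f') => H g f') _ h1) ?_
  exact iSup₂_le h2

lemma IsEquilibrium.V_int (E : IsEquilibrium B ρ b f g) : ∫⁻ y, V g y ∂B = H g g := by
  rw [← E.law, lintegral_map (V_mono g).measurable E.meas, E.H_eq g]
  exact lintegral_congr_ae (E.V_eq.mono fun i hi => hi.symm)

end Eq

lemma cross_le {B : Measure ℝ} {J₁ J₂ : Type*} [MeasurableSpace J₁] [MeasurableSpace J₂]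
    {σ₁ : Measure J₁} {c₁ : J₁ → ℝ} {h₁ : Kernel J₁ ℝ} {k₁ : Measure ℝ}
    {σ₂ : Measure J₂} {c₂ : J₂ → ℝ} {h₂ : Kernel J₂ ℝ} {k₂ : Measure ℝ}
    (F₁ : IsEquilibrium B σ₁ c₁ h₁ k₁) (F₂ : IsEquilibrium B σ₂ c₂ h₂ k₂) :
    H k₂ k₁ ≤ H k₂ k₂ := by
  rw [F₁.H_eq k₂, ← F₂.V_int, ← F₁.law, lintegral_map (V_mono k₂).measurable F₁.meas]
  refine lintegral_mono_ae (F₁.strat.mono fun i hi => ?_)
  exact le_iSup₂ (f := fun f' (_ : Strat (c₁ i) f') => H k₂ f') _ hi

lemma cross {B : Measure ℝ} {I₁ I₂ : Type*} [MeasurableSpace I₁] [MeasurableSpace I₂]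
    {ρ₁ : Measure I₁} {b₁ : I₁ → ℝ} {f₁ : Kernel I₁ ℝ} {g₁ : Measure ℝ}
    {ρ₂ : Measure I₂} {b₂ : I₂ → ℝ} {f₂ : Kernel I₂ ℝ} {g₂ : Measure ℝ}
    (E₁ : IsEquilibrium B ρ₁ b₁ f₁ g₁) (E₂ : IsEquilibrium B ρ₂ b₂ f₂ g₂) :
    ∀ᵐ i ∂ρ₁, H g₂ (f₁ i) = V g₂ (b₁ i) := by
  have hg₁ := E₁.prob_g
  have hg₂ := E₂.prob_g
  have hρ₁ := E₁.prob
  have a1 := cross_le E₁ E₂
  have a2 := cross_le E₂ E₁
  have s0 := H_add g₁ g₂
  have s1 := H_add g₁ g₁
  have s2 := H_add g₂ g₂
  have f12 : H g₂ g₁ ≠ ∞ := ne_top_of_le_ne_top ENNReal.one_ne_top (H_fin g₂ g₁)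
  have f21 : H g₁ g₂ ≠ ∞ := ne_top_of_le_ne_top ENNReal.one_ne_top (H_fin g₁ g₂)
  have f11 : H g₁ g₁ ≠ ∞ := ne_top_of_le_ne_top ENNReal.one_ne_top (H_fin g₁ g₁)
  have f22 : H g₂ g₂ ≠ ∞ := ne_top_of_le_ne_top ENNReal.one_ne_top (H_fin g₂ g₂)
  have t0 := congrArg ENNReal.toReal s0
  have t1 := congrArg ENNReal.toReal s1
  have t2 := congrArg ENNReal.toReal s2
  rw [ENNReal.toReal_add f12 f21, ENNReal.toReal_one] at t0
  rw [ENNReal.toReal_add f11 f11, ENNReal.toReal_one] at t1
  rw [ENNReal.toReal_add f22 f22, ENNReal.toReal_one] at t2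
  have b1 := ENNReal.toReal_mono f22 a1
  have b2 := ENNReal.toReal_mono f11 a2
  have heq : (H g₂ g₂).toReal ≤ (H g₂ g₁).toReal := by linarith
  have heq' : H g₂ g₂ ≤ H g₂ g₁ := (ENNReal.toReal_le_toReal f22 f12).1 heq
  have hmeas : AEMeasurable (fun i => V g₂ (b₁ i)) ρ₁ :=
    ((V_mono g₂).measurable.comp E₁.meas).aemeasurable
  have hle1 : (fun i => H g₂ (f₁ i)) ≤ᵐ[ρ₁] fun i => V g₂ (b₁ i) :=
    E₁.strat.mono fun i hi => le_iSup₂ (f := fun f' (_ : Strat (b₁ i) f') => H g₂ f') _ hi
  refine ae_eq_of_ae_le_of_lintegral_le hle1 ?_ hmeas ?_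
  · rw [← E₁.H_eq g₂]; exact f12
  · rw [← E₁.H_eq g₂]
    refine le_trans (le_of_eq ?_) heq'
    rw [← E₂.V_int, ← E₁.law, lintegral_map (V_mono g₂).measurable E₁.meas]

/-- Almost every player of the first equilibrium is supported on the contact set of a supporting
line of the payoff function of the second one. -/
lemma good_line {B : Measure ℝ} {I₁ I₂ : Type*} [MeasurableSpace I₁] [MeasurableSpace I₂]
    {ρ₁ : Measure I₁} {b₁ : I₁ → ℝ} {f₁ : Kernel I₁ ℝ} {g₁ : Measure ℝ}
    {ρ₂ : Measure I₂} {b₂ : I₂ → ℝ} {f₂ : Kernel I₂ ℝ} {g₂ : Measure ℝ}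
    (hB : B (Iic 0) = 0)
    (E₁ : IsEquilibrium B ρ₁ b₁ f₁ g₁) (E₂ : IsEquilibrium B ρ₂ b₂ f₂ g₂) :
    ∀ᵐ i ∂ρ₁, ∃ α β : ℝ, (∀ x : ℝ, 0 ≤ x → P g₂ x ≤ α * x + β) ∧
      ∀ᵐ x ∂(f₁ i), P g₂ x = α * x + β := by
  have hg₂ := E₂.prob_g
  have hpos : ∀ᵐ i ∂ρ₁, 0 < b₁ i := by
    rw [ae_iff]
    have : {i | ¬ 0 < b₁ i} = b₁ ⁻¹' (Iic 0) := by ext i; simp
    rw [this, ← Measure.map_apply E₁.meas measurableSet_Iic, E₁.law]
    exact hB
  filter_upwards [hpos, E₁.strat, cross E₁ E₂] with i h1 h2 h3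
  exact exists_line h1 h2 h3

section Eq

variable {B : Measure ℝ} {I : Type*} [MeasurableSpace I] {ρ : Measure I} {b : I → ℝ}
  {f : Kernel I ℝ} {g : Measure ℝ}

lemma IsEquilibrium.neg_zero (E : IsEquilibrium B ρ b f g) : g (Iio 0) = 0 := by
  rw [E.apply measurableSet_Iio, lintegral_eq_zero_iff (Kernel.measurable_coe f measurableSet_Iio)]
  exact E.strat.mono fun i hi => hi.nonneg

/-- The aggregate strategy of an equilibrium has no atoms. -/
lemma IsEquilibrium.no_atom (E : IsEquilibrium B ρ b f g) (hB : B (Iic 0) = 0) (x : ℝ) :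
    g {x} = 0 := by
  have hg := E.prob_g
  by_contra hne
  have hx0 : 0 ≤ x := by
    by_contra h
    push Not at h
    apply hne
    refine measure_mono_null (fun y hy => ?_) E.neg_zero
    rw [mem_singleton_iff] at hy
    rw [hy]; exact h
  have hex : ∃ᵐ i ∂ρ, f i {x} ≠ 0 := by
    rw [Filter.Frequently]
    intro h
    apply hne
    rw [E.apply (measurableSet_singleton x),
      lintegral_eq_zero_iff (Kernel.measurable_coe f (measurableSet_singleton x))]
    exact h.mono fun i hi => not_not.1 hi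
  obtain ⟨i, hi, α, β, hline, hcontact⟩ := (hex.and_eventually (good_line hB E E)).exists
  have hPx : P g x = α * x + β := by
    by_contra h
    apply hi
    refine measure_mono_null (fun y hy => ?_) (ae_iff.1 hcontact)
    rw [mem_singleton_iff] at hy
    rw [hy]; exact h
  set a := (g {x}).toReal with ha
  have hapos : 0 < a := ENNReal.toReal_pos hne (measure_ne_top g _)
  have hjump : ∀ y : ℝ, x < y → P g x + a / 2 ≤ P g y := by
    intro y hy
    have h1 : pay g x + g {x} / 2 ≤ pay g y := by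
      have h2 : pay g x + g {x} / 2 = g (Iic x) := by
        unfold pay
        rw [add_assoc, ENNReal.add_halves, ← measure_union _ (measurableSet_singleton x),
          Iio_union_right]
        simp
      rw [h2]
      exact (measure_mono fun z hz => lt_of_le_of_lt hz hy).trans le_self_add
    have hpy : pay g y ≠ ∞ := ne_top_of_le_ne_top ENNReal.one_ne_top (pay_le g y)
    have hpx : pay g x ≠ ∞ := ne_top_of_le_ne_top ENNReal.one_ne_top (pay_le g x)
    have h3 := ENNReal.toReal_mono hpy h1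
    have h4 : g {x} / 2 ≠ ∞ := ENNReal.div_ne_top (measure_ne_top g _) (by norm_num)
    rw [ENNReal.toReal_add hpx h4, ENNReal.toReal_div] at h3
    simpa [P] using h3
  have hε : 0 < a / (4 * (|α| + 1)) := by positivity
  have h1 := hjump (x + a / (4 * (|α| + 1))) (by linarith)
  have h2 := hline (x + a / (4 * (|α| + 1))) (by linarith)
  have h3 : α * (a / (4 * (|α| + 1))) ≤ a / 4 := by
    have h4 : α * (a / (4 * (|α| + 1))) ≤ |α| * (a / (4 * (|α| + 1))) :=
      mul_le_mul_of_nonneg_right (le_abs_self α) hε.le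
    have h5 : (|α| + 1) * (a / (4 * (|α| + 1))) = a / 4 := by
      have : (|α| + 1) ≠ 0 := by positivity
      field_simp
    nlinarith
  rw [hPx] at h1
  nlinarith

lemma P_eq_cdf [IsProbabilityMeasure g] (h : ∀ x, g {x} = 0) (x : ℝ) : P g x = cdf g x := by
  unfold P pay
  rw [h x, cdf_eq_real, Measure.real]
  congr 1
  have : g (Iic x) = g (Iio x) + g {x} := by
    rw [← measure_union _ (measurableSet_singleton x), Iio_union_right]
    simp
  rw [this, h x]
  simp

lemma P_cont [IsProbabilityMeasure g] (h : ∀ x, g {x} = 0) : Continuous (P g) := by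
  have e : P g = cdf g := funext (P_eq_cdf h)
  rw [e]
  rw [continuous_iff_continuousAt]
  intro x
  rw [(monotone_cdf g).continuousAt_iff_leftLim_eq_rightLim, (cdf g).rightLim_eq]
  have h1 := h x
  rw [← measure_cdf g, StieltjesFunction.measure_singleton, ENNReal.ofReal_eq_zero] at h1
  have h2 := (monotone_cdf g).leftLim_le (le_refl x)
  linarith

end Eq

/-- A line above the payoff function that touches it at `p` and `q` agrees with it in between. -/
lemma affine_between {B : Measure ℝ} {I : Type*} [MeasurableSpace I] {ρ : Measure I} {b : I → ℝ}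
    {f : Kernel I ℝ} {g : Measure ℝ} (E : IsEquilibrium B ρ b f g) (hB : B (Iic 0) = 0)
    {α β p q : ℝ} (hline : ∀ x : ℝ, 0 ≤ x → P g x ≤ α * x + β) (hp0 : 0 ≤ p)
    (hp : P g p = α * p + β) (hq : P g q = α * q + β) {x : ℝ} (hpx : p < x) (hxq : x < q) :
    P g x = α * x + β := by
  have hg := E.prob_g
  have hatom := E.no_atom hB
  have hcont := P_cont hatom
  by_contra hne
  have hlt : P g x < α * x + β := lt_of_le_of_ne (hline x (by linarith)) hne
  have hclosed : IsClosed {t : ℝ | P g t = α * t + β} :=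
    isClosed_eq hcont (by fun_prop)
  -- the left contact point
  set A := Icc p x ∩ {t : ℝ | P g t = α * t + β} with hA
  have hAc : IsCompact A := isCompact_Icc.inter_right hclosed
  have hAne : A.Nonempty := ⟨p, ⟨le_rfl, hpx.le⟩, hp⟩
  have hlA : sSup A ∈ A := hAc.sSup_mem hAne
  set l := sSup A with hl
  -- the right contact point
  set C := Icc x q ∩ {t : ℝ | P g t = α * t + β} with hC
  have hCc : IsCompact C := isCompact_Icc.inter_right hclosed
  have hCne : C.Nonempty := ⟨q, ⟨hxq.le, le_rfl⟩, hq⟩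
  have hrC : sInf C ∈ C := hCc.sInf_mem hCne
  set r := sInf C with hr
  have hlx : l < x := by
    rcases hlA.1.2.lt_or_eq with h | h
    · exact h
    · exfalso; apply hne; have := hlA.2; rw [h] at this; exact this
  have hxr : x < r := by
    rcases hrC.1.1.lt_or_eq with h | h
    · exact h
    · exfalso; apply hne; have := hrC.2; rw [← h] at this; exact this
  have hl0 : 0 ≤ l := hp0.trans hlA.1.1
  have hgap : ∀ t ∈ Ioo l r, P g t < α * t + β := by
    intro t ht
    refine lt_of_le_of_ne (hline t (by linarith [ht.1])) fun h => ?_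
    rcases le_total t x with h1 | h1
    · have : t ∈ A := ⟨⟨hlA.1.1.trans ht.1.le, h1⟩, h⟩
      have := le_csSup hAc.bddAbove this
      linarith [ht.1]
    · have : t ∈ C := ⟨⟨h1, ht.2.le.trans hrC.1.2⟩, h⟩
      have := csInf_le hCc.bddBelow this
      linarith [ht.2]
  have hzero : g (Ioo l r) = 0 := by
    rw [E.apply measurableSet_Ioo, lintegral_eq_zero_iff (Kernel.measurable_coe f measurableSet_Ioo)]
    filter_upwards [good_line hB E E] with i hi
    obtain ⟨α', β', h1, h2⟩ := hi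
    refine measure_mono_null (fun t ht => ?_) (ae_iff.1 h2)
    have hL := h1 l hl0
    have hR := h1 r (by linarith)
    rw [hlA.2] at hL
    rw [hrC.2] at hR
    have hbig : α * t + β ≤ α' * t + β' := by
      have hw : 0 < r - l := by linarith
      have e : (α' * t + β' - (α * t + β)) * (r - l)
          = (α' * l + β' - (α * l + β)) * (r - t) + (α' * r + β' - (α * r + β)) * (t - l) := by
        ring
      have h3 : 0 ≤ (α' * t + β' - (α * t + β)) * (r - l) := by
        rw [e]
        exact add_nonneg (mul_nonneg (by linarith) (by linarith [ht.2]))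
          (mul_nonneg (by linarith) (by linarith [ht.1]))
      have := nonneg_of_mul_nonneg_left h3 hw
      linarith
    have h4 := hgap t ht
    show ¬ P g t = α' * t + β'
    exact (lt_of_lt_of_le h4 hbig).ne
  have hGlr : P g r = P g l := by
    rw [P_eq_cdf hatom, P_eq_cdf hatom, cdf_eq_real, cdf_eq_real, Measure.real, Measure.real]
    congr 1
    have e1 : Iic r = (Iic l ∪ Ioo l r) ∪ {r} := by
      ext t
      simp only [mem_Iic, mem_union, mem_Ioo, mem_singleton_iff]
      constructor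
      · intro h
        rcases h.lt_or_eq with h' | h'
        · rcases le_or_gt t l with h'' | h''
          · exact Or.inl (Or.inl h'')
          · exact Or.inl (Or.inr ⟨h'', h'⟩)
        · exact Or.inr h'
      · rintro ((h | h) | h)
        · linarith
        · exact h.2.le
        · exact h.le
    apply le_antisymm
    · rw [e1]
      refine (measure_union_le _ _).trans ?_
      refine (add_le_add (measure_union_le _ _) le_rfl).trans ?_
      rw [hzero, hatom r, add_zero, add_zero]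
    · exact measure_mono (Iic_subset_Iic.2 (by linarith))
  have hmono : P g l ≤ P g x := by
    rw [P_eq_cdf hatom, P_eq_cdf hatom]
    exact monotone_cdf g hlx.le
  rw [hlA.2, hrC.2] at hGlr
  have hα : α = 0 := by
    have h1 : α * (r - l) = 0 := by linarith
    rcases mul_eq_zero.1 h1 with h | h
    · exact h
    · exfalso; linarith
  rw [hlA.2, hα] at hmono
  rw [hα] at hlt
  linarith

/-- A player of one equilibrium whose strategy charges both sides of `x` forces both payoff
functions to be affine around `x`. -/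
lemma both_affine {B : Measure ℝ} {I₁ I₂ : Type*} [MeasurableSpace I₁] [MeasurableSpace I₂]
    {ρ₁ : Measure I₁} {b₁ : I₁ → ℝ} {f₁ : Kernel I₁ ℝ} {g₁ : Measure ℝ}
    {ρ₂ : Measure I₂} {b₂ : I₂ → ℝ} {f₂ : Kernel I₂ ℝ} {g₂ : Measure ℝ}
    (hB : B (Iic 0) = 0)
    (E₁ : IsEquilibrium B ρ₁ b₁ f₁ g₁) (E₂ : IsEquilibrium B ρ₂ b₂ f₂ g₂) {x : ℝ}
    (hx : ∃ᵐ i ∂ρ₁, f₁ i (Iio x) ≠ 0 ∧ f₁ i (Ioi x) ≠ 0) :
    ∃ p q α₁ β₁ α₂ β₂ : ℝ, 0 ≤ p ∧ p < x ∧ x < q ∧
      (∀ t ∈ Icc p q, P g₁ t = α₁ * t + β₁) ∧ (∀ t ∈ Icc p q, P g₂ t = α₂ * t + β₂) := by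
  obtain ⟨i, ⟨hl, hr⟩, hs, ⟨α₁, β₁, hline₁, hc₁⟩, ⟨α₂, β₂, hline₂, hc₂⟩⟩ :=
    (hx.and_eventually ((E₁.strat.and ((good_line hB E₁ E₁).and (good_line hB E₁ E₂))))).exists
  have hnn : ∀ᵐ t ∂(f₁ i), 0 ≤ t := by
    rw [ae_iff]
    have : {t : ℝ | ¬ 0 ≤ t} = Iio 0 := by ext t; simp
    rw [this]; exact hs.nonneg
  have hall := hnn.and (hc₁.and hc₂)
  obtain ⟨p, hp, hp0, hp1, hp2⟩ : ∃ p, p < x ∧ 0 ≤ p ∧ P g₁ p = α₁ * p + β₁ ∧
      P g₂ p = α₂ * p + β₂ := by
    have : ∃ᵐ t ∂(f₁ i), t < x := by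
      rw [Filter.Frequently, ae_iff]
      have e : {t : ℝ | ¬¬ t < x} = Iio x := by ext t; simp
      rw [e]; exact hl
    obtain ⟨p, h1, h2, h3, h4⟩ := (this.and_eventually hall).exists
    exact ⟨p, h1, h2, h3, h4⟩
  obtain ⟨q, hq, hq1, hq2⟩ : ∃ q, x < q ∧ P g₁ q = α₁ * q + β₁ ∧ P g₂ q = α₂ * q + β₂ := by
    have : ∃ᵐ t ∂(f₁ i), x < t := by
      rw [Filter.Frequently, ae_iff]
      have e : {t : ℝ | ¬¬ x < t} = Ioi x := by ext t; simp
      rw [e]; exact hr
    obtain ⟨q, h1, h2, h3, h4⟩ := (this.and_eventually hall).exists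
    exact ⟨q, h1, h3, h4⟩
  refine ⟨p, q, α₁, β₁, α₂, β₂, hp0, hp, hq, ?_, ?_⟩
  · intro t ht
    rcases ht.1.eq_or_lt with rfl | h1
    · exact hp1
    · rcases ht.2.eq_or_lt with rfl | h2
      · exact hq1
      · exact affine_between E₁ hB hline₁ hp0 hp1 hq1 h1 h2
  · intro t ht
    rcases ht.1.eq_or_lt with rfl | h1
    · exact hp2
    · rcases ht.2.eq_or_lt with rfl | h2
      · exact hq2
      · exact affine_between E₂ hB hline₂ hp0 hp2 hq2 h1 h2

/-- At the other points the aggregate distribution function is that of the budgets. -/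
lemma cdf_off {B : Measure ℝ} {I : Type*} [MeasurableSpace I] {ρ : Measure I} {b : I → ℝ}
    {f : Kernel I ℝ} {g : Measure ℝ} (E : IsEquilibrium B ρ b f g) (hB : B (Iic 0) = 0) {x : ℝ}
    (hx : ¬ ∃ᵐ i ∂ρ, f i (Iio x) ≠ 0 ∧ f i (Ioi x) ≠ 0) : g (Iic x) = B (Iic x) := by
  have hx' : ∀ᵐ i ∂ρ, ¬ (f i (Iio x) ≠ 0 ∧ f i (Ioi x) ≠ 0) := by
    rw [Filter.not_frequently] at hx
    exact hx
  have hat : ∀ᵐ i ∂ρ, f i {x} = 0 := by
    have := E.no_atom hB x
    rw [E.apply (measurableSet_singleton x),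
      lintegral_eq_zero_iff (Kernel.measurable_coe f (measurableSet_singleton x))] at this
    exact this
  have hkey : ∀ᵐ i ∂ρ, f i (Iic x) = (b ⁻¹' Iic x).indicator (fun _ => (1 : ℝ≥0∞)) i := by
    filter_upwards [hx', hat, E.strat] with i h1 h2 hs
    have := hs.prob
    have hle : f i (Iio x) = 0 → x ≤ b i ∧ (b i = x → False) := by
      intro h0
      have hge : ∀ᵐ t ∂(f i), x ≤ t := by
        rw [ae_iff]
        have : {t : ℝ | ¬ x ≤ t} = Iio x := by ext t; simp
        rw [this]; exact h0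
      have hi : Integrable (fun t => t - x) (f i) := hs.int.sub (integrable_const x)
      have hint : ∫ t, (t - x) ∂(f i) = b i - x := by
        rw [integral_sub hs.int (integrable_const x), hs.mean]; simp
      have hnn : 0 ≤ ∫ t, (t - x) ∂(f i) :=
        integral_nonneg_of_ae (hge.mono fun t ht => sub_nonneg.2 ht)
      refine ⟨by linarith, fun hbx => ?_⟩
      have hz : ∫ t, (t - x) ∂(f i) = 0 := by rw [hint, hbx]; ring
      have h3 := (integral_eq_zero_iff_of_nonneg_ae
        (hge.mono fun t ht => sub_nonneg.2 ht) hi).1 hz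
      have h4 : ∀ᵐ t ∂(f i), t ∉ ({x} : Set ℝ) := by
        rw [ae_iff]; simpa using h2
      obtain ⟨t, h5, h6⟩ := (h3.and h4).exists
      simp only [Pi.zero_apply] at h5
      apply h6
      rw [mem_singleton_iff]; linarith
    have hge : f i (Ioi x) = 0 → b i ≤ x ∧ (b i = x → False) := by
      intro h0
      have hge : ∀ᵐ t ∂(f i), t ≤ x := by
        rw [ae_iff]
        have : {t : ℝ | ¬ t ≤ x} = Ioi x := by ext t; simp
        rw [this]; exact h0
      have hi : Integrable (fun t => x - t) (f i) := (integrable_const x).sub hs.int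
      have hint : ∫ t, (x - t) ∂(f i) = x - b i := by
        rw [integral_sub (integrable_const x) hs.int, hs.mean]; simp
      have hnn : 0 ≤ ∫ t, (x - t) ∂(f i) :=
        integral_nonneg_of_ae (hge.mono fun t ht => sub_nonneg.2 ht)
      refine ⟨by linarith, fun hbx => ?_⟩
      have hz : ∫ t, (x - t) ∂(f i) = 0 := by rw [hint, hbx]; ring
      have h3 := (integral_eq_zero_iff_of_nonneg_ae
        (hge.mono fun t ht => sub_nonneg.2 ht) hi).1 hz
      have h4 : ∀ᵐ t ∂(f i), t ∉ ({x} : Set ℝ) := by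
        rw [ae_iff]; simpa using h2
      obtain ⟨t, h5, h6⟩ := (h3.and h4).exists
      simp only [Pi.zero_apply] at h5
      apply h6
      rw [mem_singleton_iff]; linarith
    rcases not_and_or.1 h1 with h | h
    · have h0 : f i (Iio x) = 0 := not_not.1 h
      obtain ⟨h3, h4⟩ := hle h0
      have h5 : ¬ b i ≤ x := fun h' => h4 (le_antisymm h' h3)
      rw [indicator_of_notMem (by simpa using h5)]
      refine measure_mono_null (t := Iio x ∪ {x}) (fun t ht => ?_) (measure_union_null h0 h2)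
      rcases (show t ≤ x from ht).lt_or_eq with h' | h'
      · exact Or.inl h'
      · exact Or.inr h'
    · have h0 : f i (Ioi x) = 0 := not_not.1 h
      obtain ⟨h3, -⟩ := hge h0
      rw [indicator_of_mem (by simpa using h3)]
      have : Iic x = (Ioi x)ᶜ := by ext t; simp
      rw [this, prob_compl_eq_one_sub measurableSet_Ioi, h0, tsub_zero]
  rw [E.apply measurableSet_Iic, lintegral_congr_ae hkey,
    lintegral_indicator_const (E.meas measurableSet_Iic), one_mul, ← E.law,
    Measure.map_apply E.meas measurableSet_Iic]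

/-- The one-sided comparison. -/
lemma cdf_le {B : Measure ℝ} {I₁ I₂ : Type*} [MeasurableSpace I₁] [MeasurableSpace I₂]
    {ρ₁ : Measure I₁} {b₁ : I₁ → ℝ} {f₁ : Kernel I₁ ℝ} {g₁ : Measure ℝ}
    {ρ₂ : Measure I₂} {b₂ : I₂ → ℝ} {f₂ : Kernel I₂ ℝ} {g₂ : Measure ℝ}
    (hB : B (Iic 0) = 0)
    (E₁ : IsEquilibrium B ρ₁ b₁ f₁ g₁) (E₂ : IsEquilibrium B ρ₂ b₂ f₂ g₂) (x : ℝ) :
    P g₁ x ≤ P g₂ x := by
  have hg₁ := E₁.prob_g
  have hg₂ := E₂.prob_g
  have hat₁ := E₁.no_atom hB
  have hat₂ := E₂.no_atom hB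
  by_contra hcon
  push Not at hcon
  set φ : ℝ → ℝ := fun t => P g₁ t - P g₂ t with hφ
  have hφc : Continuous φ := (P_cont hat₁).sub (P_cont hat₂)
  have hs : 0 < φ x := by simp only [hφ]; linarith
  have hneg : ∀ t : ℝ, t ≤ 0 → φ t = 0 := by
    intro t ht
    have h0 : ∀ {g : Measure ℝ} [IsProbabilityMeasure g], (∀ y, g {y} = 0) → g (Iio 0) = 0 →
        P g t = 0 := by
      intro g _ h1 h2
      unfold P pay
      rw [h1 t]
      have : g (Iio t) = 0 := measure_mono_null (Iio_subset_Iio ht) h2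
      rw [this]; simp
    simp only [hφ]
    rw [h0 hat₁ E₁.neg_zero, h0 hat₂ E₂.neg_zero, sub_zero]
  have hx0 : 0 < x := by
    by_contra h
    push Not at h
    rw [hneg x h] at hs
    exact lt_irrefl _ hs
  have hlim : Tendsto φ atTop (𝓝 0) := by
    have h1 : Tendsto (P g₁) atTop (𝓝 1) := by
      have e : P g₁ = cdf g₁ := funext (P_eq_cdf hat₁)
      rw [e]; exact tendsto_cdf_atTop g₁
    have h2 : Tendsto (P g₂) atTop (𝓝 1) := by
      have e : P g₂ = cdf g₂ := funext (P_eq_cdf hat₂)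
      rw [e]; exact tendsto_cdf_atTop g₂
    simpa using h1.sub h2
  obtain ⟨R, hR⟩ := eventually_atTop.1 (hlim.eventually (gt_mem_nhds hs))
  have hxR : x < R := by
    by_contra h
    push Not at h
    exact lt_irrefl _ (hR x h)
  obtain ⟨m, hm, hmax⟩ := isCompact_Icc.exists_isMaxOn (nonempty_Icc.2 (hx0.le.trans hxR.le))
    hφc.continuousOn (s := Icc (0 : ℝ) R)
  have hglob : ∀ t, φ t ≤ φ m := by
    intro t
    have hxm : φ x ≤ φ m := hmax ⟨hx0.le, hxR.le⟩
    rcases le_or_gt t 0 with h | h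
    · rw [hneg t h]; linarith
    · rcases le_or_gt t R with h' | h'
      · exact hmax ⟨h.le, h'⟩
      · exact (hR t h'.le).le.trans hxm
  have hMpos : 0 < φ m := lt_of_lt_of_le hs (hglob x)
  set K := Icc (0 : ℝ) R ∩ {t | φ t = φ m} with hK
  have hKc : IsCompact K := isCompact_Icc.inter_right (isClosed_eq hφc continuous_const)
  have hKne : K.Nonempty := ⟨m, hm, rfl⟩
  have hx₀ : sInf K ∈ K := hKc.sInf_mem hKne
  set x₀ := sInf K with hx₀def
  -- both payoff functions are affine around `x₀`, or `φ x₀ = 0`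
  have hcontra : ∀ p q α₁ β₁ α₂ β₂ : ℝ, 0 ≤ p → p < x₀ → x₀ < q →
      (∀ t ∈ Icc p q, P g₁ t = α₁ * t + β₁) → (∀ t ∈ Icc p q, P g₂ t = α₂ * t + β₂) → False := by
    intro p q α₁ β₁ α₂ β₂ hp0 hp hq h1 h2
    have e : ∀ t ∈ Icc p q, φ t = (α₁ - α₂) * t + (β₁ - β₂) := by
      intro t ht
      simp only [hφ]
      rw [h1 t ht, h2 t ht]; ring
    have ep := e p ⟨le_rfl, by linarith⟩
    have eq := e q ⟨by linarith, le_rfl⟩
    have ex := e x₀ ⟨hp.le, hq.le⟩
    have hφx : φ x₀ = φ m := hx₀.2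
    have hφp := hglob p
    have hφq := hglob q
    have hpeq : φ p = φ m := by
      apply le_antisymm hφp
      have h3 : (α₁ - α₂) * (q - x₀) ≤ 0 := by nlinarith
      have h4 : α₁ - α₂ ≤ 0 := by
        by_contra h
        push Not at h
        have := mul_pos h (sub_pos.2 hq)
        linarith
      nlinarith
    have hpK : p ∈ K := ⟨⟨hp0, by linarith [hx₀.1.2]⟩, hpeq⟩
    have := csInf_le hKc.bddBelow hpK
    linarith
  by_cases hU₁ : ∃ᵐ i ∂ρ₁, f₁ i (Iio x₀) ≠ 0 ∧ f₁ i (Ioi x₀) ≠ 0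
  · obtain ⟨p, q, α₁, β₁, α₂, β₂, hp0, hp, hq, h1, h2⟩ := both_affine hB E₁ E₂ hU₁
    exact hcontra p q α₁ β₁ α₂ β₂ hp0 hp hq h1 h2
  · by_cases hU₂ : ∃ᵐ i ∂ρ₂, f₂ i (Iio x₀) ≠ 0 ∧ f₂ i (Ioi x₀) ≠ 0
    · obtain ⟨p, q, α₂, β₂, α₁, β₁, hp0, hp, hq, h2, h1⟩ := both_affine hB E₂ E₁ hU₂
      exact hcontra p q α₁ β₁ α₂ β₂ hp0 hp hq h1 h2
    · have h1 := cdf_off E₁ hB hU₁
      have h2 := cdf_off E₂ hB hU₂
      have h3 : φ x₀ = 0 := by
        simp only [hφ]
        rw [P_eq_cdf hat₁, P_eq_cdf hat₂, cdf_eq_real, cdf_eq_real, Measure.real, Measure.real,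
          h1, h2, sub_self]
      have h4 : φ x₀ = φ m := hx₀.2
      linarith

/-- Any two Nash equilibria of the Population Lotto game with the same budget distribution `B`
on `(0, ∞)` have the same aggregate population strategy. -/
theorem result.{u, v} (B : Measure ℝ) [IsProbabilityMeasure B] (hB : B (Iic 0) = 0)
    {I₁ : Type u} {I₂ : Type v} [MeasurableSpace I₁] [MeasurableSpace I₂]
    {ρ₁ : Measure I₁} {b₁ : I₁ → ℝ} {f₁ : Kernel I₁ ℝ} {g₁ : Measure ℝ}
    {ρ₂ : Measure I₂} {b₂ : I₂ → ℝ} {f₂ : Kernel I₂ ℝ} {g₂ : Measure ℝ}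
    (E₁ : IsEquilibrium B ρ₁ b₁ f₁ g₁) (E₂ : IsEquilibrium B ρ₂ b₂ f₂ g₂) : g₁ = g₂ := by
  have hg₁ := E₁.prob_g
  have hg₂ := E₂.prob_g
  refine Measure.eq_of_cdf _ _ ?_
  ext x
  rw [← P_eq_cdf (E₁.no_atom hB), ← P_eq_cdf (E₂.no_atom hB)]
  exact le_antisymm (cdf_le hB E₁ E₂ x) (cdf_le hB E₂ E₁ x)

end Pool.Agent.Results.MP_ed16aa_pr.UniqueAggregate
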